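import Mathlib
import Pool.Agent.N909.CL.Def

set_option autoImplicit false
set_option linter.unusedSectionVars false

/-! # Random Collatz maps: the weights of one path and of two paths -/

open MeasureTheory Filter Set
open scoped ENNReal Topology

namespace Pool.Agent.N433.CL.B

open Pool.Agent.R528.RM Pool.Agent.N909.CM Pool.Agent.N909.CL

lemma dec_none (n : ℕ) (w : List Bool) (p : ℕ) : dec n w p = none ↔ p ∉ pos n w := by
  induction w generalizing n with
  | nil => simp [dec, pos]
  | cons d w ih =>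
    by_cases h : p = n
    · simp [dec, pos, h]
    · simp [dec, pos, h, ih]

/-- the factor of `Phi` -/
noncomputable def phi (L : ℝ) (o : Option Bool) (d : Bool) : ℝ :=
  match o with
  | none => 1
  | some e => if d = e then L else 0

lemma Phi_prod (L : ℝ) (g : ℕ → Option Bool) (n : ℕ) (w : List Bool) (h : (pos n w).Nodup) :
    Phi L g n w = ∏ p ∈ (pos n w).toFinset, phi L (g p) ((dec n w p).getD true) := by
  induction w generalizing n with
  | nil => simp [Phi, pos]
  | cons d w ih =>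
    have h1 : n ∉ pos (stp d n) w ∧ (pos (stp d n) w).Nodup := by
      simpa [pos] using h
    have h2 : Phi L g n (d :: w) = phi L (g n) d * Phi L g (stp d n) w := by
      unfold phi
      rw [Phi]
      cases g n <;> rfl
    rw [h2, ih _ h1.2, pos, List.toFinset_cons, Finset.prod_insert (by simpa using h1.1)]
    congr 1
    · simp [dec]
    · refine Finset.prod_congr rfl fun p hp => ?_
      have hne : p ≠ n := by
        rintro rfl
        exact h1.1 (by simpa using hp)
      simp [dec, hne]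

section

variable {Ω : Type} {m0 : MeasurableSpace Ω} (μ : Measure Ω) (ℱ : Filtration ℕ m0) (B : ℕ → Set Ω)

lemma W_prod (n : ℕ) (w : List Bool) (h : (pos n w).Nodup) (ω : Ω) :
    W μ ℱ B n w ω = ∏ p ∈ (pos n w).toFinset, y μ ℱ B ((dec n w p).getD true) p ω := by
  induction w generalizing n with
  | nil => simp [W, pos]
  | cons d w ih =>
    have h1 : n ∉ pos (stp d n) w ∧ (pos (stp d n) w).Nodup := by
      simpa [pos] using h
    rw [W, ih _ h1.2, pos, List.toFinset_cons, Finset.prod_insert (by simpa using h1.1)]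
    congr 1
    · simp [dec]
    · refine Finset.prod_congr rfl fun p hp => ?_
      have hne : p ≠ n := by
        rintro rfl
        exact h1.1 (by simpa using hp)
      simp [dec, hne]

lemma y_bd {η : ℝ} (hη : 0 < η) (hη' : η < 1 / 2) {p : ℕ} {ω : Ω}
    (h : |dens μ ℱ B (p - 1) ω - 1 / 2| ≤ η) (d : Bool) :
    0 ≤ y μ ℱ B d p ω ∧ y μ ℱ B d p ω ≤ 1 / (1 / 2 - η) := by
  classical
  have h1 := abs_le.1 h
  have hL : 0 < 1 / 2 - η := by linarith
  have hp : 0 < dens μ ℱ B (p - 1) ω := by linarith [h1.1]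
  have hq : 0 < 1 - dens μ ℱ B (p - 1) ω := by linarith [h1.2]
  have key : ∀ c D : ℝ, 0 ≤ c → c ≤ 1 → 1 / 2 - η ≤ D → 0 ≤ c / D ∧ c / D ≤ 1 / (1 / 2 - η) := by
    intro c D hc hc1 hD
    exact ⟨div_nonneg hc (by linarith), div_le_div₀ zero_le_one hc1 hL hD⟩
  unfold y
  cases d
  · simp only [Bool.false_eq_true, if_false]
    refine key _ _ ?_ ?_ (by linarith)
    · split_ifs <;> norm_num
    · split_ifs <;> norm_num
  · simp only [if_true]
    refine key _ _ ?_ ?_ (by linarith)
    · split_ifs <;> norm_num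
    · split_ifs <;> norm_num

lemma y_mul {p : ℕ} {ω : Ω} {d e : Bool} (hde : d ≠ e) : y μ ℱ B e p ω * y μ ℱ B d p ω = 0 := by
  classical
  unfold y
  by_cases hB : ω ∈ B p <;> cases d <;> cases e <;> simp_all

lemma two {η : ℝ} (hη : 0 < η) (hη' : η < 1 / 2) {K : ℕ} {ω : Ω}
    (h : ∀ n, K ≤ n → |dens μ ℱ B n ω - 1 / 2| ≤ η) (n : ℕ) (w : List Bool) (hw : (pos n w).Nodup)
    (hwK : ∀ p ∈ pos n w, K < p) (n' : ℕ) (w' : List Bool) (hw' : (pos n' w').Nodup)
    (hwK' : ∀ p ∈ pos n' w', K < p) :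
    0 ≤ W μ ℱ B n w ω * W μ ℱ B n' w' ω ∧
    W μ ℱ B n w ω * W μ ℱ B n' w' ω ≤ Phi (1 / (1 / 2 - η)) (dec n w) n' w' *
      ∏ p ∈ (pos n w).toFinset ∪ (pos n' w').toFinset,
        y μ ℱ B ((dec n w p).getD ((dec n' w' p).getD true)) p ω := by
  classical
  have hy : ∀ p, K < p → ∀ d, 0 ≤ y μ ℱ B d p ω ∧ y μ ℱ B d p ω ≤ 1 / (1 / 2 - η) :=
    fun p hp d => y_bd μ ℱ B hη hη' (h (p - 1) (by omega)) d
  have hL : (0 : ℝ) ≤ 1 / (1 / 2 - η) := by
    apply div_nonneg zero_le_one
    linarith
  set P := (pos n w).toFinset with hP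
  set Q := (pos n' w').toFinset with hQ
  have hPK : ∀ p ∈ P, K < p := fun p hp => hwK p (by simpa [hP] using hp)
  have hQK : ∀ p ∈ Q, K < p := fun p hp => hwK' p (by simpa [hQ] using hp)
  rw [W_prod μ ℱ B n w hw, W_prod μ ℱ B n' w' hw', Phi_prod _ _ n' w' hw', ← hP, ← hQ]
  refine ⟨mul_nonneg (Finset.prod_nonneg fun p hp => (hy p (hPK p hp) _).1)
    (Finset.prod_nonneg fun p hp => (hy p (hQK p hp) _).1), ?_⟩
  have e1 : ∀ f : ℕ → ℝ, ∏ p ∈ P, f p = ∏ p ∈ P ∪ Q, (if p ∈ P then f p else 1) := by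
    intro f
    rw [Finset.prod_ite_mem, Finset.union_inter_cancel_left]
  have e2 : ∀ f : ℕ → ℝ, ∏ p ∈ Q, f p = ∏ p ∈ P ∪ Q, (if p ∈ Q then f p else 1) := by
    intro f
    rw [Finset.prod_ite_mem, Finset.union_inter_cancel_right]
  rw [e1, e2, e2 (fun p => phi _ _ _), ← Finset.prod_mul_distrib, ← Finset.prod_mul_distrib]
  refine Finset.prod_le_prod (fun p hp => ?_) fun p hp => ?_
  · refine mul_nonneg ?_ ?_
    · split_ifs with h1
      · exact (hy p (hPK p h1) _).1
      · exact zero_le_one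
    · split_ifs with h1
      · exact (hy p (hQK p h1) _).1
      · exact zero_le_one
  · by_cases h1 : p ∈ P
    · have hpn : dec n w p ≠ none := by
        rw [Ne, dec_none, not_not]
        simpa [hP] using h1
      obtain ⟨e, he⟩ := Option.ne_none_iff_exists'.1 hpn
      by_cases h2 : p ∈ Q
      · rw [if_pos h1, if_pos h2, if_pos h2, he]
        simp only [Option.getD_some, phi]
        by_cases h3 : (dec n' w' p).getD true = e
        · rw [if_pos h3, h3]
          exact mul_le_mul_of_nonneg_right (hy p (hPK p h1) _).2 (hy p (hPK p h1) _).1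
        · rw [if_neg h3, zero_mul]
          exact (y_mul μ ℱ B h3).le
      · rw [if_pos h1, if_neg h2, if_neg h2, he]
        simp
    · have hpn : dec n w p = none := by
        rw [dec_none]
        simpa [hP] using h1
      have h2 : p ∈ Q := by
        rcases Finset.mem_union.1 hp with h2 | h2
        · exact absurd h2 h1
        · exact h2
      rw [if_neg h1, if_pos h2, if_pos h2, hpn]
      simp [phi]

end

theorem t (hA : StmA) : StmB := by
  intro Ω m0 μ _ ℱ B hB K η hη hη' hd n w hw hwK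
  classical
  have hae : ∀ᵐ ω ∂μ, ∀ n, K ≤ n → |dens μ ℱ B n ω - 1 / 2| ≤ η := by
    rw [ae_all_iff]
    intro k
    by_cases hk : K ≤ k
    · filter_upwards [hd k hk] with ω hω _
      exact hω
    · exact Eventually.of_forall fun ω h => absurd h hk
  have one : ∀ (n : ℕ) (w : List Bool), (pos n w).Nodup → (∀ p ∈ pos n w, K < p) →
      (Integrable (fun ω => W μ ℱ B n w ω) μ ∧ ∫ ω, W μ ℱ B n w ω ∂μ = 1) := by
    intro n w hw hwK
    have h1 := hA μ ℱ B hB K η hη hη' hd (pos n w).toFinset (fun p => (dec n w p).getD true)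
      (fun p hp => hwK p (by simpa using hp))
    have h2 : (fun ω => W μ ℱ B n w ω) =
        fun ω => ∏ p ∈ (pos n w).toFinset, y μ ℱ B ((dec n w p).getD true) p ω := by
      funext ω
      exact W_prod μ ℱ B n w hw ω
    rw [h2]
    exact h1
  refine ⟨one n w hw hwK, fun n' w' hw' hwK' => ?_⟩
  have h1 := hA μ ℱ B hB K η hη hη' hd ((pos n w).toFinset ∪ (pos n' w').toFinset)
    (fun p => (dec n w p).getD ((dec n' w' p).getD true)) (fun p hp => by
      rcases Finset.mem_union.1 hp with hp | hp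
      · exact hwK p (by simpa using hp)
      · exact hwK' p (by simpa using hp))
  have h2 : Integrable (fun ω => Phi (1 / (1 / 2 - η)) (dec n w) n' w' *
      ∏ p ∈ (pos n w).toFinset ∪ (pos n' w').toFinset,
        y μ ℱ B ((dec n w p).getD ((dec n' w' p).getD true)) p ω) μ := h1.1.const_mul _
  have h3 : Integrable (fun ω => W μ ℱ B n w ω * W μ ℱ B n' w' ω) μ := by
    refine h2.mono' ((one n w hw hwK).1.aestronglyMeasurable.mul (one n' w' hw' hwK').1.aestronglyMeasurable) ?_
    filter_upwards [hae] with ω hω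
    have h4 := two μ ℱ B hη hη' hω n w hw hwK n' w' hw' hwK'
    rw [Real.norm_of_nonneg h4.1]
    exact h4.2
  refine ⟨h3, ?_⟩
  calc ∫ ω, W μ ℱ B n w ω * W μ ℱ B n' w' ω ∂μ
      ≤ ∫ ω, Phi (1 / (1 / 2 - η)) (dec n w) n' w' *
      ∏ p ∈ (pos n w).toFinset ∪ (pos n' w').toFinset,
        y μ ℱ B ((dec n w p).getD ((dec n' w' p).getD true)) p ω ∂μ := by
        refine integral_mono_ae h3 h2 ?_
        filter_upwards [hae] with ω hω
        exact (two μ ℱ B hη hη' hω n w hw hwK n' w' hw' hwK').2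
    _ = Phi (1 / (1 / 2 - η)) (dec n w) n' w' := by
        rw [integral_const_mul, h1.2, mul_one]

end Pool.Agent.N433.CL.B
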